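import Pool.Agent.Helper40_ZOL.Stmts
import Pool.Agent.Helper40_ZOL.Kit

/-!
Squad ZOL, row DSUM: the difference for the third move is a sum of local differences.
-/

namespace Pool.Agent.ZOL.H51

open Finset Pool.Agent.ZOL

/-- the three strands -/
abbrev tri (a b c : ℕ) (t m d e : Bool) : Word :=
  topPair a b t m d e ++ midPair a c t m d e ++ botPair b c t m d e

theorem labels_tri (a b c : ℕ) (t m d e : Bool) : labels (tri a b c t m d e) = {a, b, c} := by
  ext x
  cases t <;> cases m <;> cases d <;> simp [labels, tri, topPair, midPair, botPair] <;> tauto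

theorem length_sub_tri (a b c x : ℕ) (t m d e : Bool) : (sub {x} (tri a b c t m d e)).length =
    2 * ((if x = a then 1 else 0) + (if x = b then 1 else 0) + (if x = c then 1 else 0)) := by
  have h : ∀ l : Letter, ∀ w : Word, (sub {x} (l :: w)).length =
      (if x = l.1 then 1 else 0) + (sub {x} w).length := by
    intro l w
    rw [sub_cons]
    by_cases hx : x = l.1
    · rw [if_pos (by simp [hx]), if_pos hx, List.length_cons]; omega
    · rw [if_neg (by simpa using fun h => hx h.symm), if_neg hx]; omega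
  cases t <;> cases m <;> cases d <;>
    simp only [tri, topPair, midPair, botPair, if_true, if_false, Bool.false_eq_true,
      List.cons_append, List.nil_append, h, sub_nil, List.length_nil] <;> omega

theorem rev_top {a b : ℕ} (h : a ≠ b) (t m d e : Bool) (x : ℕ) :
    (sub {x} (topPair a b t m d e)).reverse = sub {x} (topPair a b t m d e) := by
  by_cases h1 : a = x
  · subst h1
    cases t <;> simp [topPair, sub, h.symm]
  · by_cases h2 : b = x
    · subst h2
      cases t <;> simp [topPair, sub, h]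
    · cases t <;> simp [topPair, sub, h1, h2]

theorem rev_mid {a c : ℕ} (h : a ≠ c) (t m d e : Bool) (x : ℕ) :
    (sub {x} (midPair a c t m d e)).reverse = sub {x} (midPair a c t m d e) := by
  by_cases h1 : a = x
  · subst h1
    cases m <;> simp [midPair, sub, h.symm]
  · by_cases h2 : c = x
    · subst h2
      cases m <;> simp [midPair, sub, h]
    · cases m <;> simp [midPair, sub, h1, h2]

theorem rev_bot {b c : ℕ} (h : b ≠ c) (t m d e : Bool) (x : ℕ) :
    (sub {x} (botPair b c t m d e)).reverse = sub {x} (botPair b c t m d e) := by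
  by_cases h1 : b = x
  · subst h1
    cases d <;> simp [botPair, sub, h.symm]
  · by_cases h2 : c = x
    · subst h2
      cases d <;> simp [botPair, sub, h]
    · cases d <;> simp [botPair, sub, h1, h2]

theorem sum_small {D : Finset ℕ → ℤ} {L : Finset ℕ}
    (h : ∀ T, T ⊆ L → 2 ≤ T.card → D T = 0) :
    ∑ T ∈ L.powerset, D T = D ∅ + ∑ x ∈ L, D {x} := by
  classical
  induction L using Finset.induction_on with
  | empty => simp
  | insert x L hx ih =>
    rw [Finset.sum_powerset_insert hx, ih fun T hT => h T (hT.trans (Finset.subset_insert _ _)),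
      Finset.sum_insert hx]
    have h2 : ∑ T ∈ L.powerset, D (insert x T) = D {x} := by
      rw [Finset.sum_eq_single ∅]
      · rfl
      · intro T hT hne
        rw [Finset.mem_powerset] at hT
        apply h _ (Finset.insert_subset_insert _ hT)
        rw [Finset.card_insert_of_notMem fun hc => hx (hT hc)]
        have := Finset.card_pos.2 (Finset.nonempty_iff_ne_empty.2 hne)
        omega
      · intro h0
        exact absurd (Finset.mem_powerset.2 (Finset.empty_subset _)) h0
    rw [h2]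
    ring

/-- the word with sub-words -/
abbrev word (u₀ s₁ u₁ s₂ u₂ s₃ u₃ : Word) : Word := u₀ ++ s₁ ++ u₁ ++ s₂ ++ u₂ ++ s₃ ++ u₃

theorem sub_word {L A R T : Finset ℕ} {u₀ s₁ u₁ s₂ u₂ s₃ u₃ : Word} (hd : Disjoint A L)
    (hR : R ⊆ A) (hT : T ⊆ L) (h₀ : labels u₀ ⊆ L) (h₁ : labels u₁ ⊆ L) (h₂ : labels u₂ ⊆ L)
    (h₃ : labels u₃ ⊆ L) (k₁ : labels s₁ ⊆ A) (k₂ : labels s₂ ⊆ A) (k₃ : labels s₃ ⊆ A) :
    sub (R ∪ T) (word u₀ s₁ u₁ s₂ u₂ s₃ u₃) =
      word (sub T u₀) (sub R s₁) (sub T u₁) (sub R s₂) (sub T u₂) (sub R s₃) (sub T u₃) := by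
  have hu : ∀ u : Word, labels u ⊆ L → sub (R ∪ T) u = sub T u := by
    intro u hu
    apply sub_congr
    ext x
    simp only [Finset.mem_inter, Finset.mem_union]
    constructor
    · rintro ⟨h1 | h1, h2⟩
      · exact absurd (hu h2) (Finset.disjoint_left.1 hd (hR h1))
      · exact ⟨h1, h2⟩
    · rintro ⟨h1, h2⟩
      exact ⟨Or.inr h1, h2⟩
  have hs : ∀ s : Word, labels s ⊆ A → sub (R ∪ T) s = sub R s := by
    intro s hs
    apply sub_congr
    ext x
    simp only [Finset.mem_inter, Finset.mem_union]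
    constructor
    · rintro ⟨h1 | h1, h2⟩
      · exact ⟨h1, h2⟩
      · exact absurd (hT h1) (Finset.disjoint_left.1 hd (hs h2))
    · rintro ⟨h1, h2⟩
      exact ⟨Or.inl h1, h2⟩
  simp only [word, sub_append, hu _ h₀, hu _ h₁, hu _ h₂, hu _ h₃, hs _ k₁, hs _ k₂, hs _ k₃]

/-- sums over the subsets of a set with three more elements -/
theorem sum_three {a b c : ℕ} {L : Finset ℕ} (ha : a ∉ L) (hb : b ∉ L) (hc : c ∉ L)
    (hab : a ≠ b) (hac : a ≠ c) (hbc : b ≠ c) (g : Finset ℕ → ℤ) :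
    ∑ S ∈ (({a, b, c} : Finset ℕ) ∪ L).powerset, g S =
      ∑ T ∈ L.powerset, (g (∅ ∪ T) + g ({a} ∪ T) + g ({b} ∪ T) + g ({c} ∪ T) + g ({a, b} ∪ T) +
        g ({a, c} ∪ T) + g ({b, c} ∪ T) + g ({a, b, c} ∪ T)) := by
  classical
  have e : (({a, b, c} : Finset ℕ) ∪ L) = insert a (insert b (insert c L)) := by
    ext x; simp
  have h1 : c ∉ L := hc
  have h2 : b ∉ insert c L := by simp [hbc, hb]
  have h3 : a ∉ insert b (insert c L) := by simp [hab, hac, ha]
  rw [e, Finset.sum_powerset_insert h3, Finset.sum_powerset_insert h2,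
    Finset.sum_powerset_insert h2, Finset.sum_powerset_insert h1, Finset.sum_powerset_insert h1,
    Finset.sum_powerset_insert h1, Finset.sum_powerset_insert h1]
  simp only [← Finset.sum_add_distrib]
  refine Finset.sum_congr rfl fun T _ => ?_
  have e1 : ({a} ∪ T : Finset ℕ) = insert a T := by ext x; simp
  have e2 : ({b} ∪ T : Finset ℕ) = insert b T := by ext x; simp
  have e3 : ({c} ∪ T : Finset ℕ) = insert c T := by ext x; simp
  have e4 : ({a, b} ∪ T : Finset ℕ) = insert a (insert b T) := by ext x; simp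
  have e5 : ({a, c} ∪ T : Finset ℕ) = insert a (insert c T) := by ext x; simp
  have e6 : ({b, c} ∪ T : Finset ℕ) = insert b (insert c T) := by ext x; simp
  have e7 : ({a, b, c} ∪ T : Finset ℕ) = insert a (insert b (insert c T)) := by ext x; simp
  rw [e1, e2, e3, e4, e5, e6, e7, Finset.empty_union]
  ring

/-- DSUM. -/
theorem dsum : DSumStmt := by
  classical
  intro P hP u₀ u₁ u₂ u₃ s₁ s₂ s₃ a b c t m d e hperm hG
  set L : Finset ℕ := labels (u₀ ++ u₁ ++ u₂ ++ u₃) with hL
  have hp1 : (s₁ ++ s₂ ++ s₃).Perm (tri a b c t m d e) := by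
    have := hperm.flatten
    simpa [tri, List.append_assoc] using this
  have hp2 : (u₀ ++ s₁ ++ u₁ ++ s₂ ++ u₂ ++ s₃ ++ u₃).Perm
      ((u₀ ++ u₁ ++ u₂ ++ u₃) ++ tri a b c t m d e) := by
    refine List.Perm.trans ?_ (hp1.append_left _)
    rw [List.perm_iff_count]
    intro x
    simp only [List.count_append]
    omega
  have hlab : labels (u₀ ++ s₁ ++ u₁ ++ s₂ ++ u₂ ++ s₃ ++ u₃) = {a, b, c} ∪ L := by
    have h1 : labels (u₀ ++ s₁ ++ u₁ ++ s₂ ++ u₂ ++ s₃ ++ u₃) =
        labels ((u₀ ++ u₁ ++ u₂ ++ u₃) ++ tri a b c t m d e) := by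
      ext x
      simp only [mem_labels, hp2.mem_iff]
    rw [h1, labels_append, labels_tri, Finset.union_comm]
  have hlen : ∀ x ∈ labels (u₀ ++ s₁ ++ u₁ ++ s₂ ++ u₂ ++ s₃ ++ u₃),
      (sub {x} (u₀ ++ u₁ ++ u₂ ++ u₃)).length + 2 * ((if x = a then 1 else 0) +
        (if x = b then 1 else 0) + (if x = c then 1 else 0)) = 2 := by
    intro x hx
    obtain ⟨l, hl⟩ := hG x hx
    have h1 : (sub {x} (u₀ ++ s₁ ++ u₁ ++ s₂ ++ u₂ ++ s₃ ++ u₃)).length =
        (sub {x} ((u₀ ++ u₁ ++ u₂ ++ u₃) ++ tri a b c t m d e)).length :=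
      (hp2.filter _).length_eq
    rw [hl, sub_append, List.length_append, length_sub_tri] at h1
    simpa using h1.symm
  have hnil : ∀ x, x = a ∨ x = b ∨ x = c → x ∉ L ∧
      (if x = a then 1 else 0) + (if x = b then 1 else 0) + (if x = c then 1 else 0) = 1 := by
    intro x hx
    have hmem : x ∈ labels (u₀ ++ s₁ ++ u₁ ++ s₂ ++ u₂ ++ s₃ ++ u₃) := by
      rw [hlab]
      simp only [Finset.mem_union, Finset.mem_insert, Finset.mem_singleton]
      tauto
    have h1 := hlen x hmem
    have h2 : 1 ≤ (if x = a then 1 else 0) + (if x = b then 1 else 0) +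
        (if x = c then 1 else 0) := by
      rcases hx with rfl | rfl | rfl
      · simp only [if_true]; omega
      · simp only [if_true]; omega
      · simp only [if_true]; omega
    have h3 : (sub {x} (u₀ ++ u₁ ++ u₂ ++ u₃)).length = 0 := by omega
    refine ⟨?_, by omega⟩
    intro hxL
    rw [hL, mem_labels] at hxL
    obtain ⟨l, hl, hlx⟩ := hxL
    have h4 : l ∈ sub {x} (u₀ ++ u₁ ++ u₂ ++ u₃) := mem_sub.2 ⟨hl, by simp [hlx]⟩
    rw [List.length_eq_zero_iff.1 h3] at h4
    exact absurd h4 (List.not_mem_nil)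
  obtain ⟨haL, ha1⟩ := hnil a (Or.inl rfl)
  obtain ⟨hbL, hb1⟩ := hnil b (Or.inr (Or.inl rfl))
  obtain ⟨hcL, hc1⟩ := hnil c (Or.inr (Or.inr rfl))
  have hab : a ≠ b := by
    intro h
    rw [if_pos rfl, if_pos h] at ha1
    omega
  have hac : a ≠ c := by
    intro h
    rw [if_pos rfl, if_pos h] at ha1
    omega
  have hbc : b ≠ c := by
    intro h
    rw [if_pos rfl, if_pos h] at hb1
    omega
  have hdisj : Disjoint ({a, b, c} : Finset ℕ) L := by
    rw [Finset.disjoint_left]
    intro x hx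
    simp only [Finset.mem_insert, Finset.mem_singleton] at hx
    rcases hx with rfl | rfl | rfl
    · exact haL
    · exact hbL
    · exact hcL
  have hsA : ∀ s ∈ [s₁, s₂, s₃], labels s ⊆ {a, b, c} ∧ ∀ x, (sub {x} s).reverse = sub {x} s := by
    intro s hs
    have h1 := hperm.mem_iff.1 hs
    constructor
    · rw [← labels_tri a b c t m d e]
      simp only [List.mem_cons, List.not_mem_nil, or_false] at h1
      simp only [tri, labels_append]
      rcases h1 with rfl | rfl | rfl
      · exact fun x hx => by simp only [Finset.mem_union]; tauto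
      · exact fun x hx => by simp only [Finset.mem_union]; tauto
      · exact fun x hx => by simp only [Finset.mem_union]; tauto
    · simp only [List.mem_cons, List.not_mem_nil, or_false] at h1
      rcases h1 with rfl | rfl | rfl
      · exact rev_top hab t m d e
      · exact rev_mid hac t m d e
      · exact rev_bot hbc t m d e
  obtain ⟨k₁, r₁⟩ := hsA s₁ (by simp)
  obtain ⟨k₂, r₂⟩ := hsA s₂ (by simp)
  obtain ⟨k₃, r₃⟩ := hsA s₃ (by simp)
  have h₀ : labels u₀ ⊆ L := by
    rw [hL]; simp only [labels_append]; intro x hx; simp only [Finset.mem_union]; tauto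
  have h₁ : labels u₁ ⊆ L := by
    rw [hL]; simp only [labels_append]; intro x hx; simp only [Finset.mem_union]; tauto
  have h₂ : labels u₂ ⊆ L := by
    rw [hL]; simp only [labels_append]; intro x hx; simp only [Finset.mem_union]; tauto
  have h₃ : labels u₃ ⊆ L := by
    rw [hL]; simp only [labels_append]; intro x hx; simp only [Finset.mem_union]; tauto
  have hlab' : labels (word u₀ s₁.reverse u₁ s₂.reverse u₂ s₃.reverse u₃) = {a, b, c} ∪ L := by
    rw [← hlab]
    simp only [word, labels_append, labels_reverse]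
  -- lengths
  have hlong : ∀ R T : Finset ℕ, R ⊆ {a, b, c} → T ⊆ L → 2 ≤ R.card → 2 ≤ T.card →
      6 < (word (sub T u₀) (sub R s₁) (sub T u₁) (sub R s₂) (sub T u₂) (sub R s₃)
        (sub T u₃)).length := by
    intro R T hR hT hR2 hT2
    rw [← sub_word hdisj hR hT h₀ h₁ h₂ h₃ k₁ k₂ k₃]
    have h1 := length_sub hG (R ∪ T)
    have h2 : (R ∪ T) ∩ labels (u₀ ++ s₁ ++ u₁ ++ s₂ ++ u₂ ++ s₃ ++ u₃) = R ∪ T := by
      rw [hlab, Finset.inter_eq_left]
      exact Finset.union_subset_union hR hT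
    rw [h2, Finset.card_union_of_disjoint (hdisj.mono hR hT)] at h1
    show 6 < (sub (R ∪ T) (u₀ ++ s₁ ++ u₁ ++ s₂ ++ u₂ ++ s₃ ++ u₃)).length
    rw [h1]
    omega
  have hzero : ∀ R T : Finset ℕ, R ⊆ {a, b, c} → T ⊆ L → 2 ≤ R.card → 2 ≤ T.card →
      f P (word (sub T u₀) (sub R s₁) (sub T u₁) (sub R s₂) (sub T u₂) (sub R s₃)
        (sub T u₃)) = 0 ∧
      f P (word (sub T u₀) (sub R s₁.reverse) (sub T u₁) (sub R s₂.reverse) (sub T u₂)
        (sub R s₃.reverse) (sub T u₃)) = 0 := by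
    intro R T hR hT hR2 hT2
    have h1 := hlong R T hR hT hR2 hT2
    refine ⟨f_eq_zero_of_lt hP h1, f_eq_zero_of_lt hP ?_⟩
    simp only [word, List.length_append, sub_reverse, List.length_reverse] at h1 ⊢
    exact h1
  have cab : ({a, b} : Finset ℕ).card = 2 := Finset.card_pair hab
  have cac : ({a, c} : Finset ℕ).card = 2 := Finset.card_pair hac
  have cbc : ({b, c} : Finset ℕ).card = 2 := Finset.card_pair hbc
  have cabc : ({a, b, c} : Finset ℕ).card = 3 := by
    rw [Finset.card_insert_of_notMem (by simp [hab, hac]), Finset.card_pair hbc]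
  have sab : ({a, b} : Finset ℕ) ⊆ {a, b, c} := by intro x; simp; tauto
  have sac : ({a, c} : Finset ℕ) ⊆ {a, b, c} := by intro x; simp; tauto
  have sbc : ({b, c} : Finset ℕ) ⊆ {a, b, c} := by intro x; simp; tauto
  have sa : ({a} : Finset ℕ) ⊆ {a, b, c} := by intro x; simp; tauto
  have sb : ({b} : Finset ℕ) ⊆ {a, b, c} := by intro x; simp; tauto
  have sc : ({c} : Finset ℕ) ⊆ {a, b, c} := by intro x; simp; tauto
  -- the sums
  have hV : V P (u₀ ++ s₁ ++ u₁ ++ s₂ ++ u₂ ++ s₃ ++ u₃) -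
      V P (u₀ ++ s₁.reverse ++ u₁ ++ s₂.reverse ++ u₂ ++ s₃.reverse ++ u₃) =
      ∑ T ∈ L.powerset, dloc P a b c s₁ s₂ s₃ (sub T u₀) (sub T u₁) (sub T u₂) (sub T u₃) := by
    have e1 := sum_three haL hbL hcL hab hac hbc
      (fun S => f P (sub S (u₀ ++ s₁ ++ u₁ ++ s₂ ++ u₂ ++ s₃ ++ u₃)))
    have e2 := sum_three haL hbL hcL hab hac hbc
      (fun S => f P (sub S (u₀ ++ s₁.reverse ++ u₁ ++ s₂.reverse ++ u₂ ++ s₃.reverse ++ u₃)))
    have hlab'' : labels (u₀ ++ s₁.reverse ++ u₁ ++ s₂.reverse ++ u₂ ++ s₃.reverse ++ u₃) =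
        {a, b, c} ∪ L := hlab'
    rw [V, V, hlab, hlab'', e1, e2, ← Finset.sum_sub_distrib]
    refine Finset.sum_congr rfl fun T hT => ?_
    rw [Finset.mem_powerset] at hT
    have q : ∀ R : Finset ℕ, R ⊆ {a, b, c} →
        sub (R ∪ T) (u₀ ++ s₁ ++ u₁ ++ s₂ ++ u₂ ++ s₃ ++ u₃) =
        sub T u₀ ++ sub R s₁ ++ sub T u₁ ++ sub R s₂ ++ sub T u₂ ++ sub R s₃ ++ sub T u₃ :=
      fun R hR => sub_word hdisj hR hT h₀ h₁ h₂ h₃ k₁ k₂ k₃
    have q' : ∀ R : Finset ℕ, R ⊆ {a, b, c} →
        sub (R ∪ T) (u₀ ++ s₁.reverse ++ u₁ ++ s₂.reverse ++ u₂ ++ s₃.reverse ++ u₃) =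
        sub T u₀ ++ sub R s₁.reverse ++ sub T u₁ ++ sub R s₂.reverse ++ sub T u₂ ++
          sub R s₃.reverse ++ sub T u₃ :=
      fun R hR => sub_word hdisj hR hT h₀ h₁ h₂ h₃ (by rw [labels_reverse]; exact k₁)
        (by rw [labels_reverse]; exact k₂) (by rw [labels_reverse]; exact k₃)
    rw [q _ (Finset.empty_subset _), q _ sa, q _ sb, q _ sc, q _ sab, q _ sac, q _ sbc,
      q _ (Finset.Subset.refl _), q' _ (Finset.empty_subset _), q' _ sa, q' _ sb, q' _ sc,
      q' _ sab, q' _ sac, q' _ sbc, q' _ (Finset.Subset.refl _)]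
    have z0 : ∀ w : Word, sub ∅ w = [] := by
      intro w
      apply sub_eq_nil
      exact Finset.disjoint_empty_left _
    have z1 : ∀ x, sub {x} s₁.reverse = sub {x} s₁ := fun x => by rw [sub_reverse, r₁]
    have z2 : ∀ x, sub {x} s₂.reverse = sub {x} s₂ := fun x => by rw [sub_reverse, r₂]
    have z3 : ∀ x, sub {x} s₃.reverse = sub {x} s₃ := fun x => by rw [sub_reverse, r₃]
    simp only [z0, z1, z2, z3, dloc, List.map_cons, List.map_nil, List.sum_cons, List.sum_nil]
    ring
  rw [hV, sum_small]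
  · have z0 : ∀ w : Word, sub ∅ w = [] := by
      intro w
      apply sub_eq_nil
      exact Finset.disjoint_empty_left _
    rw [z0, z0, z0, z0]
  · intro T hT hT2
    simp only [dloc, List.map_cons, List.map_nil, List.sum_cons, List.sum_nil]
    have y1 := hzero {a, b} T sab hT (by omega) hT2
    have y2 := hzero {a, c} T sac hT (by omega) hT2
    have y3 := hzero {b, c} T sbc hT (by omega) hT2
    have y4 := hzero {a, b, c} T (Finset.Subset.refl _) hT (by omega) hT2
    simp only [word] at y1 y2 y3 y4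
    rw [y1.1, y1.2, y2.1, y2.2, y3.1, y3.2, y4.1, y4.2]
    ring

end Pool.Agent.ZOL.H51
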